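import Mathlib

set_option autoImplicit false

namespace Pool.Agent.T6.H78.CH

open scoped BigOperators

/-- A normalised symmetric 2-cocycle with values `±1` on an abelian group. -/
structure SymC (G : Type) [AddCommGroup G] where
  σ : G → G → ℤˣ
  h0 : σ 0 0 = 1
  hc : ∀ g h k, σ g h * σ (g + h) k = σ g (h + k) * σ h k
  hs : ∀ g h, σ g h = σ h g

/-- The abelian extension of `G` by `±1` given by the cocycle. -/
@[ext] structure Ex {G : Type} [AddCommGroup G] (c : SymC G) where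
  s : ℤˣ
  g : G

variable {G : Type} [AddCommGroup G] (c : SymC G)

theorem usq (a : ℤˣ) : a * a = 1 := Int.units_mul_self a

theorem SymC.zero_left (h : G) : c.σ 0 h = 1 := by
  have e := c.hc 0 0 h
  rw [c.h0, zero_add, zero_add, one_mul] at e
  have : c.σ 0 h * 1 = c.σ 0 h * c.σ 0 h := by rw [mul_one]; exact e
  exact (mul_left_cancel this).symm

theorem SymC.zero_right (h : G) : c.σ h 0 = 1 := by
  rw [c.hs, c.zero_left]

noncomputable instance : CommGroup (Ex c) where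
  mul x y := ⟨x.s * y.s * c.σ x.g y.g, x.g + y.g⟩
  one := ⟨1, 0⟩
  inv x := ⟨x.s * c.σ x.g (-x.g), -x.g⟩
  mul_assoc x y z := by
    refine Ex.ext ?_ (add_assoc _ _ _)
    change x.s * y.s * c.σ x.g y.g * z.s * c.σ (x.g + y.g) z.g
      = x.s * (y.s * z.s * c.σ y.g z.g) * c.σ x.g (y.g + z.g)
    have e := c.hc x.g y.g z.g
    calc x.s * y.s * c.σ x.g y.g * z.s * c.σ (x.g + y.g) z.g
        = x.s * y.s * z.s * (c.σ x.g y.g * c.σ (x.g + y.g) z.g) := by
          simp only [mul_assoc, mul_left_comm, mul_comm]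
      _ = x.s * y.s * z.s * (c.σ x.g (y.g + z.g) * c.σ y.g z.g) := by rw [e]
      _ = _ := by simp only [mul_assoc, mul_left_comm, mul_comm]
  one_mul x := by
    refine Ex.ext ?_ (zero_add _)
    change 1 * x.s * c.σ 0 x.g = x.s
    rw [c.zero_left, one_mul, mul_one]
  mul_one x := by
    refine Ex.ext ?_ (add_zero _)
    change x.s * 1 * c.σ x.g 0 = x.s
    rw [c.zero_right, mul_one, mul_one]
  inv_mul_cancel x := by
    refine Ex.ext ?_ (neg_add_cancel _)
    change x.s * c.σ x.g (-x.g) * x.s * c.σ (-x.g) x.g = 1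
    rw [c.hs (-x.g) x.g]
    calc x.s * c.σ x.g (-x.g) * x.s * c.σ x.g (-x.g)
        = (x.s * x.s) * (c.σ x.g (-x.g) * c.σ x.g (-x.g)) := by
          simp only [mul_assoc, mul_left_comm, mul_comm]
      _ = 1 := by rw [usq, usq, one_mul]
  mul_comm x y := by
    refine Ex.ext ?_ (add_comm _ _)
    change x.s * y.s * c.σ x.g y.g = y.s * x.s * c.σ y.g x.g
    rw [c.hs y.g x.g, mul_comm x.s y.s]

theorem mul_s (x y : Ex c) : (x * y).s = x.s * y.s * c.σ x.g y.g := rfl
theorem mul_g (x y : Ex c) : (x * y).g = x.g + y.g := rfl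
theorem one_s : (1 : Ex c).s = 1 := rfl
theorem one_g : (1 : Ex c).g = 0 := rfl
theorem inv_g (x : Ex c) : (x⁻¹).g = -x.g := rfl

theorem pow_g (x : Ex c) (n : ℕ) : (x ^ n).g = n • x.g := by
  induction n with
  | zero => rw [pow_zero, zero_nsmul]; rfl
  | succ n ih => rw [pow_succ, mul_g, ih, succ_nsmul]

/-- the central involution -/
def zz : Ex c := ⟨-1, 0⟩

/-- the section -/
def u (g : G) : Ex c := ⟨1, g⟩

theorem sq_of_g_zero (x : Ex c) (h : x.g = 0) : x * x = 1 := by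
  refine Ex.ext ?_ ?_
  · rw [mul_s, h, c.h0, mul_one, usq]; rfl
  · rw [mul_g, h, add_zero]; rfl

theorem zz_mul_u (g : G) : zz c * u c g = ⟨-1, g⟩ := by
  refine Ex.ext ?_ ?_
  · rw [mul_s]; change -1 * 1 * c.σ 0 g = -1
    rw [c.zero_left, mul_one, mul_one]
  · rw [mul_g]; exact zero_add _

theorem u_mul_inv (a h : G) : u c (a + h) * (u c h)⁻¹ = ⟨c.σ a h, a⟩ := by
  rw [mul_inv_eq_iff_eq_mul]
  refine Ex.ext ?_ ?_
  · rw [mul_s]; change 1 = c.σ a h * 1 * c.σ a h
    rw [mul_one, usq]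
  · rw [mul_g]; rfl

end Pool.Agent.T6.H78.CH
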