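import Mathlib
import Pool.Agent.T6.H78.CH.Ext

set_option autoImplicit false
set_option linter.unusedSectionVars false

namespace Pool.Agent.T6.H78.CH

open scoped BigOperators
open MonoidAlgebra

variable {G : Type} [AddCommGroup G] [Fintype G] (c : SymC G)
variable (k : Type) [CommRing k]

noncomputable def W : MonoidAlgebra k (Ex c) := 1 - of k (Ex c) (zz c)
noncomputable def U : MonoidAlgebra k (Ex c) := ∑ g : G, of k (Ex c) (u c g)
noncomputable def V : MonoidAlgebra k (Ex c) := ∑ g : G, of k (Ex c) ((u c g)⁻¹)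

theorem W_mul_zz (x : Ex c) : W c k * of k (Ex c) (zz c * x) = - (W c k * of k (Ex c) x) := by
  have h : of k (Ex c) (zz c) * of k (Ex c) (zz c) = 1 := by
    rw [← map_mul, sq_of_g_zero c (zz c) rfl, map_one]
  have h2 : W c k * of k (Ex c) (zz c) = - W c k := by
    unfold W; rw [sub_mul, one_mul, h]; ring
  rw [map_mul, ← mul_assoc, h2, neg_mul]

theorem W_sign (s : ℤˣ) (g : G) :
    W c k * of k (Ex c) ⟨s, g⟩ = ((s : ℤ) : k) • (W c k * of k (Ex c) (u c g)) := by
  rcases Int.units_eq_one_or s with h | h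
  · subst h; simp [u]
  · subst h
    rw [← zz_mul_u, W_mul_zz]; simp

/-- row sums -/
def rowSum (a : G) : ℤ := ∑ h : G, ((c.σ a h : ℤˣ) : ℤ)

theorem W_U_V (N : ℤ) (hrow : ∀ a : G, a ≠ 0 → rowSum c a = 0) (h0 : rowSum c 0 = N) :
    W c k * (U c k * V c k) = (N : k) • W c k := by
  classical
  have e1 : U c k * V c k = ∑ h : G, ∑ a : G, of k (Ex c) ⟨c.σ a h, a⟩ := by
    unfold U V
    rw [Finset.sum_mul_sum, Finset.sum_comm]
    refine Finset.sum_congr rfl fun h _ => ?_
    rw [← Equiv.sum_comp (Equiv.addRight h)]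
    refine Finset.sum_congr rfl fun a _ => ?_
    rw [← map_mul, Equiv.coe_addRight, u_mul_inv]
  rw [e1, Finset.sum_comm, Finset.mul_sum]
  have e2 : ∀ a : G, W c k * ∑ h : G, of k (Ex c) ⟨c.σ a h, a⟩
      = ((rowSum c a : ℤ) : k) • (W c k * of k (Ex c) (u c a)) := by
    intro a
    rw [Finset.mul_sum]
    rw [Finset.sum_congr rfl fun h _ => W_sign c k (c.σ a h) a]
    rw [← Finset.sum_smul]
    congr 1
    unfold rowSum
    push_cast
    rfl
  rw [Finset.sum_congr rfl fun a _ => e2 a]
  rw [Finset.sum_eq_single (0 : G)]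
  · rw [h0]
    have : u c 0 = 1 := rfl
    rw [this, map_one, mul_one]
  · intro a _ ha
    rw [hrow a ha]; simp
  · intro h; exact absurd (Finset.mem_univ _) h

open Classical in
/-- restriction of the support -/
noncomputable def rho (S : AddSubgroup G) : MonoidAlgebra k (Ex c) →+ MonoidAlgebra k (Ex c) where
  toFun x := MonoidAlgebra.ofCoeff (x.coeff.filter fun e => e.g ∈ S)
  map_zero' := by
    rw [MonoidAlgebra.coeff_zero, Finsupp.filter_zero, MonoidAlgebra.ofCoeff_zero]
  map_add' x y := by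
    rw [MonoidAlgebra.coeff_add, Finsupp.filter_add, MonoidAlgebra.ofCoeff_add]

theorem rho_coeff (S : AddSubgroup G) [DecidablePred fun g : G => g ∈ S]
    (x : MonoidAlgebra k (Ex c)) (e : Ex c) :
    (rho c k S x).coeff e = if e.g ∈ S then x.coeff e else 0 := by
  by_cases h : e.g ∈ S
  · rw [if_pos h]
    simp [rho, h]
  · rw [if_neg h]
    simp [rho, h]

/-- right multiplication by `y` commutes with `rho` -/
def Good (S : AddSubgroup G) (y : MonoidAlgebra k (Ex c)) : Prop :=
  ∀ x, rho c k S (x * y) = rho c k S x * y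

theorem good_of (S : AddSubgroup G) (e : Ex c) (he : e.g ∈ S) : Good c k S (of k (Ex c) e) := by
  classical
  intro x
  apply MonoidAlgebra.coeff_injective
  ext f
  rw [rho_coeff, of_apply, coeff_mul_single_apply, coeff_mul_single_apply, rho_coeff]
  have : (f * e⁻¹).g = f.g - e.g := by rw [mul_g, inv_g, sub_eq_add_neg]
  rw [this]
  by_cases h : f.g ∈ S
  · rw [if_pos h, if_pos (S.sub_mem h he)]
  · rw [if_neg h, if_neg, zero_mul]
    intro h2
    apply h
    have := S.add_mem h2 he
    rwa [sub_add_cancel] at this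

theorem good_sum {ι : Type} (S : AddSubgroup G) (s : Finset ι) (f : ι → MonoidAlgebra k (Ex c))
    (h : ∀ i ∈ s, Good c k S (f i)) : Good c k S (∑ i ∈ s, f i) := by
  intro x
  rw [Finset.mul_sum, map_sum, Finset.mul_sum]
  exact Finset.sum_congr rfl fun i hi => h i hi x

theorem good_W (S : AddSubgroup G) : Good c k S (W c k) := by
  intro x
  unfold W
  have h1 : (1 : MonoidAlgebra k (Ex c)) = of k (Ex c) 1 := (map_one _).symm
  rw [mul_sub, map_sub, mul_sub, good_of c k S (zz c) S.zero_mem x, h1,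
    good_of c k S 1 S.zero_mem x]

theorem rho_of (S : AddSubgroup G) [DecidablePred fun g : G => g ∈ S] (e : Ex c) :
    rho c k S (of k (Ex c) e) = if e.g ∈ S then of k (Ex c) e else 0 := by
  classical
  apply MonoidAlgebra.coeff_injective
  ext f
  rw [rho_coeff]
  by_cases h : e.g ∈ S
  · rw [if_pos h]
    by_cases hf : f.g ∈ S
    · rw [if_pos hf]
    · rw [if_neg hf, of_apply, coeff_single, Finsupp.single_apply, if_neg]
      rintro rfl; exact hf h
  · rw [if_neg h]
    by_cases hf : f.g ∈ S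
    · rw [if_pos hf, of_apply, coeff_single, Finsupp.single_apply, if_neg]
      · simp
      · rintro rfl; exact h hf
    · rw [if_neg hf]; simp

noncomputable def U0 (S : AddSubgroup G) [DecidablePred fun g : G => g ∈ S] :
    MonoidAlgebra k (Ex c) := ∑ g ∈ Finset.univ.filter (fun g : G => g ∈ S), of k (Ex c) (u c g)
noncomputable def V0 (S : AddSubgroup G) [DecidablePred fun g : G => g ∈ S] :
    MonoidAlgebra k (Ex c) := ∑ g ∈ Finset.univ.filter (fun g : G => g ∈ S), of k (Ex c) ((u c g)⁻¹)

theorem rho_U (S : AddSubgroup G) [DecidablePred fun g : G => g ∈ S] :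
    rho c k S (U c k) = U0 c k S := by
  unfold U U0
  rw [map_sum, Finset.sum_filter]
  refine Finset.sum_congr rfl fun g _ => ?_
  rw [rho_of]; rfl

theorem rho_V (S : AddSubgroup G) [DecidablePred fun g : G => g ∈ S] :
    rho c k S (V c k) = V0 c k S := by
  unfold V V0
  rw [map_sum, Finset.sum_filter]
  refine Finset.sum_congr rfl fun g _ => ?_
  rw [rho_of]
  have : ((u c g)⁻¹).g = -g := rfl
  rw [this]
  simp only [S.neg_mem_iff]

/-- the power map on the group ring -/
noncomputable def tau (q : ℕ) : MonoidAlgebra k (Ex c) →+* MonoidAlgebra k (Ex c) :=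
  mapDomainRingHom k (powMonoidHom q)

theorem tau_of (q : ℕ) (e : Ex c) : tau c k q (of k (Ex c) e) = of k (Ex c) (e ^ q) := by
  simp [tau]

end Pool.Agent.T6.H78.CH
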