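import Mathlib
import Pool.Agent.T6.H78.CH.Alg

set_option autoImplicit false
set_option linter.unusedSectionVars false

namespace Pool.Agent.T6.H78.CH

open scoped BigOperators
open MonoidAlgebra

variable {G : Type} [AddCommGroup G] [Fintype G] (c : SymC G)

theorem charP_alg (p : ℕ) [Fact p.Prime] : CharP (MonoidAlgebra (ZMod p) (Ex c)) p := by
  have hinj : Function.Injective (singleOneRingHom : ZMod p →+* MonoidAlgebra (ZMod p) (Ex c)) := by
    intro a b h
    have := congrArg (fun x => x.coeff 1) h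
    simpa [singleOneRingHom] using this
  exact charP_of_injective_ringHom hinj p

theorem pow_eq_tau (p : ℕ) [Fact p.Prime] (n : ℕ) (x : MonoidAlgebra (ZMod p) (Ex c)) :
    x ^ (p ^ n) = tau c (ZMod p) (p ^ n) x := by
  have := charP_alg c p
  induction x using MonoidAlgebra.induction_linear with
  | zero =>
    rw [map_zero, zero_pow]
    exact pow_ne_zero _ (Fact.out : p.Prime).ne_zero
  | add x y hx hy => rw [add_pow_char_pow, hx, hy, map_add]
  | single e a =>
    rw [single_pow, ZMod.pow_card_pow]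
    simp [tau]

noncomputable def red (p : ℕ) : MonoidAlgebra ℤ (Ex c) →+* MonoidAlgebra (ZMod p) (Ex c) :=
  mapRingHom (Ex c) (Int.castRingHom (ZMod p))

theorem red_of (p : ℕ) (e : Ex c) : red c p (of ℤ (Ex c) e) = of (ZMod p) (Ex c) e := by
  simp [red]

theorem exists_of_red (p : ℕ) [NeZero p] (x : MonoidAlgebra ℤ (Ex c)) (h : red c p x = 0) :
    ∃ y : MonoidAlgebra ℤ (Ex c), x = (p : ℤ) • y := by
  refine ⟨MonoidAlgebra.ofCoeff (x.coeff.mapRange (fun n => n / (p : ℤ)) (by simp)), ?_⟩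
  apply MonoidAlgebra.coeff_injective
  ext e
  rw [coeff_smul_apply]
  simp only [Finsupp.mapRange_apply, smul_eq_mul]
  have h1 : ((x.coeff e : ℤ) : ZMod p) = 0 := by
    have := congrArg (fun y => y.coeff e) h
    simpa [red] using this
  have h2 : (p : ℤ) ∣ x.coeff e := (ZMod.intCast_zmod_eq_zero_iff_dvd _ _).mp h1
  exact (Int.mul_ediv_cancel' h2).symm

theorem main (p r : ℕ) (hp : p.Prime) (hp2 : p ≠ 2) (hr : ¬ p ∣ r)
    (hcard : Fintype.card G = r * p)
    (hrow : ∀ a : G, a ≠ 0 → rowSum c a = 0) (h0 : rowSum c 0 = ((r * p : ℕ) : ℤ)) : False := by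
  classical
  have : Fact p.Prime := ⟨hp⟩
  have : NeZero p := ⟨hp.ne_zero⟩
  have hr0 : r ≠ 0 := by rintro rfl; exact hr (dvd_zero _)
  have hcop : Nat.Coprime p (2 * r) := by
    rw [Nat.Prime.coprime_iff_not_dvd hp, Nat.Prime.dvd_mul hp]
    rintro (h | h)
    · exact hp2 ((Nat.prime_dvd_prime_iff_eq hp Nat.prime_two).mp h)
    · exact hr h
  set n := Nat.totient (2 * r) with hn
  have hn0 : n ≠ 0 := by
    rw [hn]; exact (Nat.totient_pos.mpr (by omega)).ne'
  set q := p ^ n with hq
  have hqmod : q ≡ 1 [MOD 2 * r] := Nat.ModEq.pow_totient hcop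
  have hpq : p ∣ q := dvd_pow_self p hn0
  have hq2 : 2 ≤ q := le_trans hp.two_le (Nat.le_of_dvd (pow_pos hp.pos _) hpq)
  let S : AddSubgroup G := (nsmulAddMonoidHom (α := G) r).ker
  have hS : ∀ g : G, g ∈ S ↔ r • g = 0 := fun g => by
    simp [S, AddMonoidHom.mem_ker]
  -- (a)
  have ha : ∀ e : Ex c, e.g ∈ S → e ^ q = e := by
    intro e he
    have h1 : (e ^ r).g = 0 := by rw [pow_g]; exact (hS _).mp he
    have h2 : e ^ (2 * r) = 1 := by
      have := sq_of_g_zero c (e ^ r) h1
      rw [← pow_add] at this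
      rw [two_mul]; exact this
    have := pow_eq_pow_of_modEq hqmod h2
    rwa [pow_one] at this
  -- (b)
  have hb : ∀ e : Ex c, (e ^ q).g ∈ S := by
    intro e
    rw [hS, pow_g, smul_smul]
    obtain ⟨m, hm⟩ := hpq
    have : r * q = m * Fintype.card G := by rw [hm, hcard]; ring
    rw [this, mul_smul, card_nsmul_eq_zero, smul_zero]
  -- objects over ZMod p
  set B := MonoidAlgebra (ZMod p) (Ex c)
  have htauW : ∀ (k : Type) [CommRing k], tau c k q (W c k) = W c k := by
    intro k _
    unfold W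
    rw [map_sub, map_one, tau_of, ha (zz c) S.zero_mem]
  have htauU0 : ∀ (k : Type) [CommRing k], tau c k q (U0 c k S) = U0 c k S := by
    intro k _
    unfold U0
    rw [map_sum]
    refine Finset.sum_congr rfl fun g hg => ?_
    rw [tau_of, ha]
    exact (Finset.mem_filter.mp hg).2
  have htauV0 : ∀ (k : Type) [CommRing k], tau c k q (V0 c k S) = V0 c k S := by
    intro k _
    unfold V0
    rw [map_sum]
    refine Finset.sum_congr rfl fun g hg => ?_
    rw [tau_of, ha]
    exact S.neg_mem (Finset.mem_filter.mp hg).2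
  have hWUV : W c (ZMod p) * (U c (ZMod p) * V c (ZMod p)) = 0 := by
    rw [W_U_V c (ZMod p) _ hrow h0]
    have : (((r * p : ℕ) : ℤ) : ZMod p) = 0 := by push_cast; simp
    rw [this, zero_smul]
  have hgoodV : Good c (ZMod p) S (tau c (ZMod p) q (V c (ZMod p))) := by
    unfold V
    rw [map_sum]
    refine good_sum c (ZMod p) S _ _ fun g _ => ?_
    rw [tau_of]
    exact good_of c (ZMod p) S _ (hb _)
  have hgoodU : Good c (ZMod p) S (tau c (ZMod p) q (U c (ZMod p))) := by
    unfold U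
    rw [map_sum]
    refine good_sum c (ZMod p) S _ _ fun g _ => ?_
    rw [tau_of]
    exact good_of c (ZMod p) S _ (hb _)
  obtain ⟨q', hq'⟩ : ∃ q', q = q' + 1 := ⟨q - 1, by omega⟩
  have hV1 : W c (ZMod p) * U0 c (ZMod p) S * tau c (ZMod p) q (V c (ZMod p)) = 0 := by
    have e1 : U c (ZMod p) * W c (ZMod p) * tau c (ZMod p) q (V c (ZMod p)) = 0 := by
      rw [← pow_eq_tau, ← hq, hq', pow_succ]
      calc U c (ZMod p) * W c (ZMod p) * (V c (ZMod p) ^ q' * V c (ZMod p))
          = (W c (ZMod p) * (U c (ZMod p) * V c (ZMod p))) * V c (ZMod p) ^ q' := by ring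
        _ = 0 := by rw [hWUV, zero_mul]
    have e2 := congrArg (rho c (ZMod p) S) e1
    rw [hgoodV, good_W c (ZMod p) S, rho_U, map_zero] at e2
    rw [mul_comm (W c (ZMod p))]; exact e2
  have hU1 : W c (ZMod p) * V0 c (ZMod p) S * tau c (ZMod p) q (U c (ZMod p)) = 0 := by
    have e1 : V c (ZMod p) * W c (ZMod p) * tau c (ZMod p) q (U c (ZMod p)) = 0 := by
      rw [← pow_eq_tau, ← hq, hq', pow_succ]
      calc V c (ZMod p) * W c (ZMod p) * (U c (ZMod p) ^ q' * U c (ZMod p))
          = (W c (ZMod p) * (U c (ZMod p) * V c (ZMod p))) * U c (ZMod p) ^ q' := by ring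
        _ = 0 := by rw [hWUV, zero_mul]
    have e2 := congrArg (rho c (ZMod p) S) e1
    rw [hgoodU, good_W c (ZMod p) S, rho_V, map_zero] at e2
    rw [mul_comm (W c (ZMod p))]; exact e2
  -- reductions
  have redW : red c p (W c ℤ) = W c (ZMod p) := by
    unfold W; rw [map_sub, map_one, red_of]
  have redU0 : red c p (U0 c ℤ S) = U0 c (ZMod p) S := by
    unfold U0; rw [map_sum]; exact Finset.sum_congr rfl fun g _ => red_of c p _
  have redV0 : red c p (V0 c ℤ S) = V0 c (ZMod p) S := by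
    unfold V0; rw [map_sum]; exact Finset.sum_congr rfl fun g _ => red_of c p _
  have redtU : red c p (tau c ℤ q (U c ℤ)) = tau c (ZMod p) q (U c (ZMod p)) := by
    unfold U; rw [map_sum, map_sum, map_sum]
    exact Finset.sum_congr rfl fun g _ => by rw [tau_of, tau_of, red_of]
  have redtV : red c p (tau c ℤ q (V c ℤ)) = tau c (ZMod p) q (V c (ZMod p)) := by
    unfold V; rw [map_sum, map_sum, map_sum]
    exact Finset.sum_congr rfl fun g _ => by rw [tau_of, tau_of, red_of]
  obtain ⟨X, hX⟩ := exists_of_red c p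
    (W c ℤ * U0 c ℤ S * V0 c ℤ S * tau c ℤ q (U c ℤ)) (by
      rw [map_mul, map_mul, map_mul, redW, redU0, redV0, redtU]
      calc W c (ZMod p) * U0 c (ZMod p) S * V0 c (ZMod p) S * tau c (ZMod p) q (U c (ZMod p))
          = U0 c (ZMod p) S * (W c (ZMod p) * V0 c (ZMod p) S
              * tau c (ZMod p) q (U c (ZMod p))) := by ring
        _ = 0 := by rw [hU1, mul_zero])
  obtain ⟨Y, hY⟩ := exists_of_red c p
    (W c ℤ * U0 c ℤ S * V0 c ℤ S * tau c ℤ q (V c ℤ)) (by
      rw [map_mul, map_mul, map_mul, redW, redU0, redV0, redtV]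
      calc W c (ZMod p) * U0 c (ZMod p) S * V0 c (ZMod p) S * tau c (ZMod p) q (V c (ZMod p))
          = V0 c (ZMod p) S * (W c (ZMod p) * U0 c (ZMod p) S
              * tau c (ZMod p) q (V c (ZMod p))) := by ring
        _ = 0 := by rw [hV1, mul_zero])
  have hWt : W c ℤ * (tau c ℤ q (U c ℤ) * tau c ℤ q (V c ℤ)) = ((r * p : ℕ) : ℤ) • W c ℤ := by
    have e := congrArg (tau c ℤ q) (W_U_V c ℤ _ hrow h0)
    rw [map_mul, map_mul, htauW, Int.cast_id, map_zsmul, htauW] at e
    exact e
  set y := W c ℤ * (U0 c ℤ S * V0 c ℤ S) with hy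
  have hXY : ((r * p : ℕ) : ℤ) • (y * y) = ((p : ℤ) * p) • (X * Y) := by
    have e1 : (W c ℤ * U0 c ℤ S * V0 c ℤ S * tau c ℤ q (U c ℤ))
        * (W c ℤ * U0 c ℤ S * V0 c ℤ S * tau c ℤ q (V c ℤ))
        = ((r * p : ℕ) : ℤ) • (y * y) := by
      calc (W c ℤ * U0 c ℤ S * V0 c ℤ S * tau c ℤ q (U c ℤ))
            * (W c ℤ * U0 c ℤ S * V0 c ℤ S * tau c ℤ q (V c ℤ))
          = (y * (U0 c ℤ S * V0 c ℤ S)) *
              (W c ℤ * (tau c ℤ q (U c ℤ) * tau c ℤ q (V c ℤ))) := by rw [hy]; ring
        _ = ((r * p : ℕ) : ℤ) • (y * y) := by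
            rw [hWt, mul_smul_comm]
            congr 1
            rw [hy]; ring
    rw [← e1, hX, hY, smul_mul_smul_comm]
  have hyy : red c p (y * y) = 0 := by
    apply MonoidAlgebra.coeff_injective
    ext e
    have e1 := congrArg (fun x => x.coeff e) hXY
    simp only [coeff_smul_apply, smul_eq_mul] at e1
    have hp0 : (p : ℤ) ≠ 0 := by exact_mod_cast hp.ne_zero
    have e2 : (r : ℤ) * (y * y).coeff e = (p : ℤ) * (X * Y).coeff e := by
      apply mul_left_cancel₀ hp0
      push_cast at e1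
      linarith
    have e3 := congrArg (fun z : ℤ => (z : ZMod p)) e2
    simp only [Int.cast_mul, Int.cast_natCast, ZMod.natCast_self, zero_mul] at e3
    have hrz : (r : ZMod p) ≠ 0 := by
      intro h; exact hr ((ZMod.natCast_eq_zero_iff r p).mp h)
    have e4 : (((y * y).coeff e : ℤ) : ZMod p) = 0 := by
      rcases mul_eq_zero.mp e3 with h | h
      · exact absurd h hrz
      · exact h
    have e5 : (red c p (y * y)).coeff e = (((y * y).coeff e : ℤ) : ZMod p) := by
      rw [red, coeff_mapRingHom]; rfl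
    rw [e5, e4]; rfl
  set yb := W c (ZMod p) * (U0 c (ZMod p) S * V0 c (ZMod p) S) with hyb
  have hredy : red c p y = yb := by
    rw [hy, map_mul, map_mul, redW, redU0, redV0]
  have hyb2 : yb * yb = 0 := by
    rw [← hredy, ← map_mul, hyy]
  have hyb0 : yb = 0 := by
    have e1 : yb ^ q = 0 := by
      obtain ⟨m, hm⟩ : ∃ m, q = 2 + m := ⟨q - 2, by omega⟩
      rw [hm, pow_add, pow_two, hyb2, zero_mul]
    have e2 : yb ^ q = yb := by
      rw [hq, pow_eq_tau, ← hq, hyb, map_mul, map_mul, htauW, htauU0, htauV0]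
    rw [← e2, e1]
  -- the coefficient at 1
  have hF : yb.coeff 1 = ((Finset.univ.filter (fun g : G => g ∈ S)).card : ZMod p) := by
    set F := Finset.univ.filter (fun g : G => g ∈ S)
    have e1 : yb = ∑ g ∈ F, ∑ h ∈ F, (of (ZMod p) (Ex c) (u c g * (u c h)⁻¹)
        - of (ZMod p) (Ex c) (zz c * (u c g * (u c h)⁻¹))) := by
      rw [hyb]
      unfold W U0 V0
      rw [Finset.sum_mul_sum, Finset.mul_sum]
      refine Finset.sum_congr rfl fun g _ => ?_
      rw [Finset.mul_sum]
      refine Finset.sum_congr rfl fun h _ => ?_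
      rw [sub_mul, one_mul, ← map_mul, ← map_mul]
    have e2 : ∀ g h : G, ((of (ZMod p) (Ex c) (u c g * (u c h)⁻¹)
        - of (ZMod p) (Ex c) (zz c * (u c g * (u c h)⁻¹))).coeff 1 : ZMod p)
        = if g = h then 1 else 0 := by
      intro g h
      have hz : zz c * (u c g * (u c h)⁻¹) ≠ 1 := by
        intro hz
        rw [← mul_assoc, mul_inv_eq_one, zz_mul_u] at hz
        have := congrArg Ex.s hz
        change (-1 : ℤˣ) = 1 at this
        exact absurd this (by decide)
      have hg : (u c g * (u c h)⁻¹ = 1) ↔ g = h := by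
        rw [mul_inv_eq_one]
        constructor
        · intro h2; exact congrArg Ex.g h2
        · rintro rfl; rfl
      rw [MonoidAlgebra.coeff_sub]
      simp only [Finsupp.coe_sub, Pi.sub_apply, of_apply, coeff_single, Finsupp.single_apply]
      rw [if_neg hz, sub_zero]
      by_cases hgh : g = h
      · rw [if_pos hgh, if_pos (hg.mpr hgh)]
      · rw [if_neg hgh, if_neg (fun h2 => hgh (hg.mp h2))]
    rw [e1]
    simp only [coeff_sum, Finsupp.coe_finsetSum, Finset.sum_apply, e2]
    rw [Finset.sum_congr rfl fun g hg => Finset.sum_ite_eq F g (fun _ => (1 : ZMod p))]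
    rw [Finset.sum_congr rfl fun g hg => if_pos hg]
    simp
  rw [hyb0] at hF
  have hdiv : p ∣ (Finset.univ.filter (fun g : G => g ∈ S)).card := by
    rw [← ZMod.natCast_eq_zero_iff]
    rw [← hF]; simp
  have hcS : (Finset.univ.filter (fun g : G => g ∈ S)).card = Fintype.card S := by
    rw [Fintype.card_subtype]
  rw [hcS] at hdiv
  obtain ⟨x, hx⟩ := exists_prime_addOrderOf_dvd_card p hdiv
  have hx2 : r • x = 0 := by
    apply Subtype.ext
    have := (hS x.1).mp x.2
    simpa using this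
  have := addOrderOf_dvd_of_nsmul_eq_zero hx2
  rw [hx] at this
  exact hr this

end Pool.Agent.T6.H78.CH
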